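import Pool.Agent.Work.MP_91aed7_am.Interface

set_option autoImplicit false

open MvPolynomial

namespace Pool.AM.START_

variable {k : Type} [Field k] {σ : Type}

lemma fix_of_vars (θ : MvPolynomial σ k →ₐ[k] MvPolynomial σ k) (f : MvPolynomial σ k)
    (h : ∀ v ∈ f.vars, θ (X v) = X v) : θ f = f := by
  have := MvPolynomial.hom_congr_vars
    (f₁ := (θ : MvPolynomial σ k →+* MvPolynomial σ k)) (f₂ := RingHom.id _)
    (p₁ := f) (p₂ := f) (by
      ext c
      simp) (fun i hi _ => by simpa using h i hi) rfl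
  simpa using this

lemma exists_el (i : σ) (f : MvPolynomial σ k) (hf : i ∉ f.vars) :
    ∃ τ : MvPolynomial σ k ≃ₐ[k] MvPolynomial σ k,
      τ (X i) = X i + f ∧ (∀ j, j ≠ i → τ (X j) = X j) := by
  classical
  let F : MvPolynomial σ k →ₐ[k] MvPolynomial σ k :=
    aeval fun v => if v = i then X i + f else X v
  let G : MvPolynomial σ k →ₐ[k] MvPolynomial σ k :=
    aeval fun v => if v = i then X i - f else X v
  have hFi : F (X i) = X i + f := by simp [F]
  have hGi : G (X i) = X i - f := by simp [G]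
  have hFj : ∀ j, j ≠ i → F (X j) = X j := by
    intro j hj
    simp [F, hj]
  have hGj : ∀ j, j ≠ i → G (X j) = X j := by
    intro j hj
    simp [G, hj]
  have hFf : F f = f := fix_of_vars F f fun v hv => hFj v (by rintro rfl; exact hf hv)
  have hGf : G f = f := fix_of_vars G f fun v hv => hGj v (by rintro rfl; exact hf hv)
  have h1 : F.comp G = AlgHom.id k _ := by
    apply MvPolynomial.algHom_ext
    intro v
    by_cases hv : v = i
    · subst hv
      simp only [AlgHom.comp_apply, hGi, map_sub, hFi, hFf, AlgHom.id_apply]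
      ring
    · simp only [AlgHom.comp_apply, hGj v hv, hFj v hv, AlgHom.id_apply]
  have h2 : G.comp F = AlgHom.id k _ := by
    apply MvPolynomial.algHom_ext
    intro v
    by_cases hv : v = i
    · subst hv
      simp only [AlgHom.comp_apply, hFi, map_add, hGi, hGf, AlgHom.id_apply]
      ring
    · simp only [AlgHom.comp_apply, hGj v hv, hFj v hv, AlgHom.id_apply]
  exact ⟨AlgEquiv.ofAlgHom F G h1 h2, hFi, hFj⟩

lemma exists_sc (i : σ) (c : k) (hc : c ≠ 0) :
    ∃ τ ∈ Tm k σ,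
      τ (X i) = C c * X i ∧ (∀ j, j ≠ i → τ (X j) = X j) ∧
      τ⁻¹ (X i) = C c⁻¹ * X i ∧ (∀ j, j ≠ i → τ⁻¹ (X j) = X j) := by
  classical
  let F : MvPolynomial σ k →ₐ[k] MvPolynomial σ k :=
    aeval fun v => if v = i then C c * X i else X v
  let G : MvPolynomial σ k →ₐ[k] MvPolynomial σ k :=
    aeval fun v => if v = i then C c⁻¹ * X i else X v
  have hFi : F (X i) = C c * X i := by simp [F]
  have hGi : G (X i) = C c⁻¹ * X i := by simp [G]
  have hFj : ∀ j, j ≠ i → F (X j) = X j := by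
    intro j hj
    simp [F, hj]
  have hGj : ∀ j, j ≠ i → G (X j) = X j := by
    intro j hj
    simp [G, hj]
  have hFC : ∀ a : k, F (C a) = C a := fun a => F.commutes a
  have hGC : ∀ a : k, G (C a) = C a := fun a => G.commutes a
  have h1 : F.comp G = AlgHom.id k _ := by
    apply MvPolynomial.algHom_ext
    intro v
    by_cases hv : v = i
    · subst hv
      simp only [AlgHom.comp_apply, hGi, map_mul, hFi, hFC, AlgHom.id_apply]
      rw [← mul_assoc, ← C_mul, inv_mul_cancel₀ hc, C_1, one_mul]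
    · simp only [AlgHom.comp_apply, hGj v hv, hFj v hv, AlgHom.id_apply]
  have h2 : G.comp F = AlgHom.id k _ := by
    apply MvPolynomial.algHom_ext
    intro v
    by_cases hv : v = i
    · subst hv
      simp only [AlgHom.comp_apply, hFi, map_mul, hGi, hGC, AlgHom.id_apply]
      rw [← mul_assoc, ← C_mul, mul_inv_cancel₀ hc, C_1, one_mul]
    · simp only [AlgHom.comp_apply, hGj v hv, hFj v hv, AlgHom.id_apply]
  refine ⟨AlgEquiv.ofAlgHom F G h1 h2, Subgroup.subset_closure (Or.inr ⟨i, c, hc, hFi, hFj⟩),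
    hFi, hFj, hGi, hGj⟩

/-- a product of commuting elementary automorphisms -/
lemma shear [DecidableEq σ] (s : Finset σ) (f : σ → MvPolynomial σ k) :
    (∀ v ∈ s, ∀ w ∈ s, w ∉ (f v).vars) →
    ∃ τ ∈ Tm k σ, (∀ v ∈ s, τ (X v) = X v + f v) ∧ ∀ v, v ∉ s → τ (X v) = X v := by
  induction s using Finset.induction_on with
  | empty =>
    intro _
    exact ⟨1, one_mem _, by simp, by simp⟩
  | insert a s ha ih =>
    intro hf
    obtain ⟨τ, hτ, h1, h2⟩ := ih fun v hv w hw =>
      hf v (Finset.mem_insert_of_mem hv) w (Finset.mem_insert_of_mem hw)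
    have haa : a ∉ (f a).vars :=
      hf a (Finset.mem_insert_self _ _) a (Finset.mem_insert_self _ _)
    obtain ⟨ε, e1, e2⟩ := exists_el a (f a) haa
    have hε : ε ∈ Tm k σ := Subgroup.subset_closure (Or.inl ⟨a, f a, haa, e1, e2⟩)
    have hfa : τ (f a) = f a := fix_of_vars (τ : MvPolynomial σ k →ₐ[k] MvPolynomial σ k) (f a)
      fun v hv => h2 v fun hvs =>
        hf a (Finset.mem_insert_self _ _) v (Finset.mem_insert_of_mem hvs) hv
    refine ⟨τ * ε, mul_mem hτ hε, ?_, ?_⟩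
    · intro v hv
      rw [AlgEquiv.mul_apply]
      rcases Finset.mem_insert.1 hv with rfl | hvs
      · rw [e1, map_add, h2 v ha, hfa]
      · rw [e2 v (by rintro rfl; exact ha hvs), h1 v hvs]
    · intro v hv
      rw [Finset.mem_insert, not_or] at hv
      rw [AlgEquiv.mul_apply, e2 v hv.1, h2 v hv.2]

lemma shearX {n : ℕ} (g : Fin n → PS k n) (hg : ∀ i j, (Sum.inl j : Vr n) ∉ (g i).vars) :
    ∃ τ ∈ Tm k (Vr n), (∀ i, τ (X (Sum.inl i)) = X (Sum.inl i) + g i) ∧
      ∀ j : ℕ, τ (X (Sum.inr j)) = X (Sum.inr j) := by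
  classical
  obtain ⟨τ, hτ, h1, h2⟩ := shear (k := k) (Finset.univ.map ⟨(Sum.inl : Fin n → Vr n),
    Sum.inl_injective⟩) (Sum.elim g fun _ => 0) (by
      intro v hv w hw
      simp only [Finset.mem_map, Finset.mem_univ, true_and, Function.Embedding.coeFn_mk]
        at hv hw
      obtain ⟨i, rfl⟩ := hv
      obtain ⟨j, rfl⟩ := hw
      exact hg i j)
  refine ⟨τ, hτ, ?_, ?_⟩
  · intro i
    exact h1 _ (by simp)
  · intro j
    exact h2 _ (by simp)

lemma shearY {n : ℕ} (g : Fin n → PS k n) (hg : ∀ i j, (Sum.inr j : Vr n) ∉ (g i).vars) :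
    ∃ τ ∈ Tm k (Vr n), (∀ i, τ (X (Sum.inl i)) = X (Sum.inl i)) ∧
      (∀ i : Fin n, τ (X (Sum.inr (i : ℕ))) = X (Sum.inr (i : ℕ)) + g i) ∧
      ∀ j : ℕ, n ≤ j → τ (X (Sum.inr j)) = X (Sum.inr j) := by
  classical
  obtain ⟨τ, hτ, h1, h2⟩ := shear (k := k) (Finset.univ.image fun i : Fin n =>
    (Sum.inr (i : ℕ) : Vr n))
    (Sum.elim (fun _ => 0) fun j => if h : j < n then g ⟨j, h⟩ else 0) (by
      intro v hv w hw
      simp only [Finset.mem_image, Finset.mem_univ, true_and] at hv hw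
      obtain ⟨i, rfl⟩ := hv
      obtain ⟨j, rfl⟩ := hw
      simp only [Sum.elim_inr, Fin.is_lt, dite_true]
      exact hg i j)
  refine ⟨τ, hτ, ?_, ?_, ?_⟩
  · intro i
    exact h2 _ (by simp)
  · intro i
    have := h1 (Sum.inr (i : ℕ)) (by simp)
    simpa using this
  · intro j hj
    refine h2 _ ?_
    simp only [Finset.mem_image, Finset.mem_univ, true_and, not_exists]
    intro i hi
    have h3 : (i : ℕ) = j := Sum.inr_injective hi
    have := i.2
    omega

lemma der_rename {n : ℕ} (δ : Vr n → PS k n) (hδ : ∀ i : Fin n, δ (Sum.inl i)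
    = X (Sum.inr (i : ℕ))) (G : MvPolynomial (Fin n) k) :
    mkDerivation k δ (rename Sum.inl G)
      = ∑ j : Fin n, rename Sum.inl (pderiv j G) * X (Sum.inr (j : ℕ)) := by
  classical
  induction G using MvPolynomial.induction_on with
  | C a => simp
  | add p q hp hq =>
    rw [map_add, map_add, hp, hq, ← Finset.sum_add_distrib]
    refine Finset.sum_congr rfl fun j _ => ?_
    rw [map_add, map_add, add_mul]
  | mul_X p i hp =>
    rw [map_mul, rename_X, Derivation.leibniz, hp, mkDerivation_X, hδ, smul_eq_mul, smul_eq_mul]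
    have h1 : ∀ j : Fin n, rename (Sum.inl : Fin n → Vr n) (pderiv j (p * X i))
        * (X (Sum.inr (j : ℕ)) : PS k n)
        = (if j = i then rename (Sum.inl : Fin n → Vr n) p * (X (Sum.inr (j : ℕ)) : PS k n)
            else 0)
          + X (Sum.inl i) * (rename (Sum.inl : Fin n → Vr n) (pderiv j p)
            * (X (Sum.inr (j : ℕ)) : PS k n)) := by
      intro j
      rw [pderiv_mul, map_add, map_mul, map_mul, rename_X]
      by_cases hj : j = i
      · subst hj
        rw [if_pos rfl, pderiv_X_self, map_one]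
        ring
      · rw [if_neg hj, pderiv_X_of_ne (Ne.symm hj), map_zero]
        ring
    rw [Finset.sum_congr rfl fun j _ => h1 j, Finset.sum_add_distrib, ← Finset.mul_sum,
      Finset.sum_ite_eq' Finset.univ i, if_pos (Finset.mem_univ _)]

end Pool.AM.START_

namespace Pool.AM

open START_

theorem stmt_START (hSUS : Stmt_SUS) (hLIN : Stmt_LIN) (hJAC : Stmt_JAC) (hJ : Stmt_J)
    (_hLV : Stmt_LV) (hFLL : Stmt_FLL) : Stmt_START := by
  intro k _ n φ Φ hΦ hΦs hFL
  classical
  have J := hJ k n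
  have FLs := hFLL k n
  -- the Jacobian matrix
  obtain ⟨JM, hJM⟩ : ∃ JM : Matrix (Fin n) (Fin n) (MvPolynomial (Fin n) k),
    JM = Matrix.of fun i j => pderiv j (φ.symm (X i)) := ⟨_, rfl⟩
  obtain ⟨c, hc, hdet⟩ : ∃ c : k, c ≠ 0 ∧ JM.det = C c := by
    obtain ⟨c, hc, h⟩ := hJAC k (Fin n) Finset.univ φ.symm (by
      intro v _
      rw [Finset.coe_univ, supported_univ]
      exact Algebra.mem_top)
    refine ⟨c, hc, ?_⟩
    rw [← h, ← Matrix.det_submatrix_equiv_self (Equiv.subtypeUnivEquiv Finset.mem_univ) JM, hJM]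
    rfl
  -- the block matrix
  obtain ⟨M, hM⟩ : ∃ M : Matrix (Fin n ⊕ Unit) (Fin n ⊕ Unit) (MvPolynomial (Fin n) k),
    M = Matrix.fromBlocks JM 0 0 (Matrix.diagonal fun _ => C c⁻¹) := ⟨_, rfl⟩
  have hMdet : M.det = 1 := by
    rw [hM, Matrix.det_fromBlocks_zero₂₁, Matrix.det_diagonal, hdet]
    simp only [Finset.univ_unique, Finset.prod_const, Finset.card_singleton, pow_one]
    rw [← C_mul, mul_inv_cancel₀ hc, C_1]
  obtain ⟨l, hl⟩ := hSUS k n _ M hMdet
  obtain ⟨e, he⟩ : ∃ e : (Fin n ⊕ Unit) ⊕ Fin l → ℕ,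
    e = Sum.elim (Sum.elim (fun i : Fin n => (i : ℕ)) (fun _ : Unit => n))
      (fun j : Fin l => n + 1 + (j : ℕ)) :=
    ⟨_, rfl⟩
  have einj : Function.Injective e := by
    rw [he]
    rintro ((a | a) | a) ((b | b) | b) hab <;>
      simp only [Sum.elim_inl, Sum.elim_inr] at hab
    · rw [Fin.ext hab]
    · have := a.2; omega
    · have := a.2; omega
    · have := b.2; omega
    · rfl
    · omega
    · have := b.2; omega
    · omega
    · rw [Fin.ext (by omega : (a : ℕ) = b)]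
  obtain ⟨μ', hμ', m1, m2, m3, m4⟩ := hLIN k n _ e einj _ hl
  have mu_low : ∀ i : Fin n, μ' (X (Sum.inr (i : ℕ)))
      = ∑ j : Fin n, rename Sum.inl (JM i j) * X (Sum.inr (j : ℕ)) := by
    intro i
    have h := m2 (Sum.inl (Sum.inl i))
    rw [Fintype.sum_sum_type, Fintype.sum_sum_type] at h
    simpa [he, hM] using h
  have mu_n : μ' (X (Sum.inr n)) = C c⁻¹ * X (Sum.inr n) := by
    have h := m2 (Sum.inl (Sum.inr ()))
    rw [Fintype.sum_sum_type, Fintype.sum_sum_type] at h
    simpa [he, hM] using h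
  have mu_hi : ∀ j : ℕ, n < j → μ' (X (Sum.inr j)) = X (Sum.inr j) := by
    intro j hj
    by_cases hjl : j < n + 1 + l
    · have h := m2 (Sum.inr ⟨j - (n + 1), by omega⟩)
      rw [Fintype.sum_sum_type] at h
      have e1 : e (Sum.inr ⟨j - (n + 1), by omega⟩) = j := by
        rw [he]
        simp only [Sum.elim_inr]
        omega
      rw [e1] at h
      simp only [Matrix.fromBlocks_apply₂₁, Matrix.fromBlocks_apply₂₂, Matrix.zero_apply,
        map_zero, zero_mul, Finset.sum_const_zero, zero_add] at h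
      rw [h, Finset.sum_eq_single (⟨j - (n + 1), by omega⟩ : Fin l)]
      · rw [Matrix.one_apply_eq, map_one, one_mul, e1]
      · intro b _ hb
        rw [Matrix.one_apply_ne (Ne.symm hb), map_zero, zero_mul]
      · intro hh
        exact absurd (Finset.mem_univ _) hh
    · refine m3 j ?_
      rintro ⟨a, ha⟩
      rw [he] at ha
      rcases a with (a | a) | a
      · simp only [Sum.elim_inl] at ha
        have := a.2
        omega
      · simp only [Sum.elim_inl, Sum.elim_inr] at ha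
        omega
      · simp only [Sum.elim_inr] at ha
        have := a.2
        omega
  obtain ⟨sc, hsc, s1, s2, s3, s4⟩ := exists_sc (Sum.inr n : Vr n) c hc
  -- the shears
  obtain ⟨al, hal, al1, al2, al3⟩ := shearY (fun i => rename Sum.inl (φ (X i)) : Fin n → PS k n)
    (by
      intro i j hj
      have := vars_rename Sum.inl (φ (X i)) hj
      simp at this)
  obtain ⟨be, hbe, be1, be2⟩ := shearX (fun i => -(rename (fun j : Fin n =>
    (Sum.inr (j : ℕ) : Vr n)) (φ.symm (X i))) : Fin n → PS k n)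
    (by
      intro i j hj
      rw [vars_neg] at hj
      have := vars_rename (fun j : Fin n => (Sum.inr (j : ℕ) : Vr n)) (φ.symm (X i)) hj
      simp at this)
  obtain ⟨A, hA, A1, A2⟩ := shearX (fun i => X (Sum.inr (i : ℕ)) : Fin n → PS k n)
    (by
      intro i j hj
      rw [vars_X] at hj
      simp at hj)
  obtain ⟨B, hB, B1, B2, B3⟩ := shearY (fun i => -X (Sum.inl i) : Fin n → PS k n)
    (by
      intro i j hj
      rw [vars_neg, vars_X] at hj
      simp at hj)
  have rho1 : ∀ i : Fin n, A (B (A (X (Sum.inl i)))) = X (Sum.inr (i : ℕ)) := by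
    intro i
    rw [A1, map_add, B1, B2, map_add, map_add, A1, A2, map_neg, A1]
    ring
  have rho2 : ∀ i : Fin n, A (B (A (X (Sum.inr (i : ℕ))))) = -X (Sum.inl i) := by
    intro i
    rw [A2, B2, map_add, A2, map_neg, A1]
    ring
  have rho3 : ∀ j : ℕ, n ≤ j → A (B (A (X (Sum.inr j)))) = X (Sum.inr j) := by
    intro j hj
    rw [A2, B3 j hj, A2]
  obtain ⟨t0, ht0⟩ : ∃ t0 : PS k n ≃ₐ[k] PS k n, t0 = al * be * (A * B * A) := ⟨_, rfl⟩
  have t0m : t0 ∈ Tm k (Vr n) := by
    rw [ht0]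
    exact mul_mem (mul_mem hal hbe) (mul_mem (mul_mem hA hB) hA)
  obtain ⟨η, hη⟩ : ∃ η : PS k n ≃ₐ[k] PS k n, η = Φ⁻¹ * t0 := ⟨_, rfl⟩
  have Φinv : ∀ p : PS k n, Φ⁻¹ p = Φ.symm p := fun p => rfl
  have Φren : ∀ p : MvPolynomial (Fin n) k,
      Φ.symm (rename Sum.inl p) = rename Sum.inl (φ.symm p) := by
    intro p
    have h : (Φ.symm : PS k n →ₐ[k] PS k n).comp (rename Sum.inl)
        = (rename Sum.inl).comp (φ.symm : MvPolynomial (Fin n) k →ₐ[k] MvPolynomial (Fin n) k) := by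
      apply MvPolynomial.algHom_ext
      intro i
      simp only [AlgHom.comp_apply, rename_X]
      exact hΦs.1 i
    exact DFunLike.congr_fun h p
  have η1 : ∀ i : Fin n, η (X (Sum.inl i)) = X (Sum.inl i) + X (Sum.inr (i : ℕ)) := by
    intro i
    rw [hη, ht0]
    simp only [AlgEquiv.mul_apply]
    rw [rho1, be2, al2, map_add, Φinv, Φinv, Φren, hΦs.2, AlgEquiv.symm_apply_apply, rename_X]
    ring
  have γ : ∀ p : MvPolynomial (Fin n) k,
      Φ.symm (al (rename (fun j : Fin n => (Sum.inr (j : ℕ) : Vr n)) p))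
        = A (rename Sum.inl p) := by
    intro p
    have h : ((Φ.symm : PS k n →ₐ[k] PS k n).comp (al : PS k n →ₐ[k] PS k n)).comp
          (rename (fun j : Fin n => (Sum.inr (j : ℕ) : Vr n)))
        = (A : PS k n →ₐ[k] PS k n).comp (rename Sum.inl) := by
      apply MvPolynomial.algHom_ext
      intro i
      simp only [AlgHom.comp_apply, rename_X]
      change Φ.symm (al (X (Sum.inr (i : ℕ)))) = A (X (Sum.inl i))
      rw [al2, map_add, Φren, hΦs.2, AlgEquiv.symm_apply_apply, rename_X, A1]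
      ring
    exact DFunLike.congr_fun h p
  have η2 : ∀ i : Fin n, η (X (Sum.inr (i : ℕ)))
      = A (rename Sum.inl (φ.symm (X i))) - rename Sum.inl (φ.symm (X i)) := by
    intro i
    rw [hη, ht0]
    simp only [AlgEquiv.mul_apply]
    rw [rho2, map_neg, be1, map_neg, map_add, al1, map_neg, map_neg, map_add, map_neg, Φinv,
      Φinv, γ, hΦs.1]
    ring
  have η3 : ∀ j : ℕ, n ≤ j → η (X (Sum.inr j)) = X (Sum.inr j) := by
    intro j hj
    rw [hη, ht0]
    simp only [AlgEquiv.mul_apply]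
    rw [rho3 j hj, be2, al3 j hj, Φinv, hΦs.2]
  have Jy : ∀ j : ℕ, (X (Sum.inr j) : PS k n) ∈ Pool.AM.J k n 1 := fun j => J.X_mem (Sum.inr j)
  have η4 : ∀ i : Fin n, η (X (Sum.inr (i : ℕ)))
      - ∑ j : Fin n, rename Sum.inl (JM i j) * X (Sum.inr (j : ℕ)) ∈ Pool.AM.J k n 2 := by
    intro i
    have h := J.taylor (A : PS k n →ₐ[k] PS k n)
      (Sum.elim (fun i : Fin n => X (Sum.inr (i : ℕ))) fun _ => 0) 1 (by
        rintro (v | v)
        · exact A1 v
        · rw [Sum.elim_inr, add_zero]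
          exact A2 v) (by
        rintro (v | v)
        · exact Jy v
        · exact zero_mem _) (J.zero (rename Sum.inl (φ.symm (X i))))
    rw [der_rename _ (fun i => rfl)] at h
    rw [η2, hJM]
    exact h
  -- the automorphism mu
  obtain ⟨μ, hμ⟩ : ∃ μ : PS k n ≃ₐ[k] PS k n, μ = μ' * sc := ⟨_, rfl⟩
  have μm : μ ∈ Tm k (Vr n) := by
    rw [hμ]
    exact mul_mem hμ' hsc
  have μ1 : ∀ i : Fin n, μ (X (Sum.inl i)) = X (Sum.inl i) := by
    intro i
    rw [hμ, AlgEquiv.mul_apply, s2 _ (by simp), m1]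
  have μ2 : ∀ i : Fin n, μ (X (Sum.inr (i : ℕ)))
      = ∑ j : Fin n, rename Sum.inl (JM i j) * X (Sum.inr (j : ℕ)) := by
    intro i
    rw [hμ, AlgEquiv.mul_apply, s2 _ (by
      intro h
      have h1 : (i : ℕ) = n := Sum.inr_injective h
      have := i.2
      omega), mu_low]
  have μ3 : ∀ j : ℕ, n ≤ j → μ (X (Sum.inr j)) = X (Sum.inr j) := by
    intro j hj
    rw [hμ, AlgEquiv.mul_apply]
    rcases hj.eq_or_lt with rfl | hj
    · rw [s1, map_mul, mu_n]
      have : μ' (C c) = C c := μ'.commutes c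
      rw [this, ← mul_assoc, ← C_mul, mul_inv_cancel₀ hc, C_1, one_mul]
    · rw [s2 _ (by
        intro h
        have h1 : j = n := Sum.inr_injective h
        omega), mu_hi j hj]
  have μinv : ∀ v, μ⁻¹ (X v) ∈ Pool.AM.J k n (wt v) := by
    intro v
    rw [hμ, mul_inv_rev, AlgEquiv.mul_apply]
    refine J.pres ((sc⁻¹ : PS k n ≃ₐ[k] PS k n) : PS k n →ₐ[k] PS k n) ?_ (m4 v)
    intro w
    change sc⁻¹ (X w) ∈ _
    by_cases hw : w = Sum.inr n
    · subst hw
      rw [s3]
      have h1 := J.mul (J.zero (C c⁻¹ : PS k n)) (J.X_mem (Sum.inr n : Vr n))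
      rw [zero_add] at h1
      exact h1
    · rw [s4 w hw]
      exact J.X_mem w
  have Jsum : ∀ i : Fin n, (∑ j : Fin n, rename Sum.inl (JM i j) * X (Sum.inr (j : ℕ)) : PS k n)
      ∈ Pool.AM.J k n 1 := by
    intro i
    refine sum_mem fun j _ => ?_
    have := J.mul (J.zero (rename Sum.inl (JM i j) : PS k n)) (Jy j)
    rwa [zero_add] at this
  have Jμ : ∀ v, μ (X v) ∈ Pool.AM.J k n (wt v) := by
    rintro (i | j)
    · exact J.zero _
    · rcases lt_or_ge j n with hj | hj
      · have := μ2 ⟨j, hj⟩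
        rw [this]
        exact Jsum _
      · rw [μ3 j hj]
        exact Jy j
  have Jdiff : ∀ v, η (X v) - μ (X v) ∈ Pool.AM.J k n (1 + wt v) := by
    rintro (i | j)
    · rw [η1, μ1, add_sub_cancel_left]
      exact Jy i
    · rcases lt_or_ge j n with hj | hj
      · have h1 := μ2 ⟨j, hj⟩
        have h2 := η4 ⟨j, hj⟩
        simp only at h1 h2
        rw [h1]
        exact h2
      · rw [μ3 j hj, η3 j hj, sub_self]
        exact zero_mem _
  have Jη : ∀ v, η (X v) ∈ Pool.AM.J k n (wt v) := by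
    intro v
    have h1 := add_mem (J.mono (by omega : wt v ≤ 1 + wt v) (Jdiff v)) (Jμ v)
    rwa [sub_add_cancel] at h1
  have hprod : Φ * (η * μ⁻¹) = t0 * μ⁻¹ := by
    rw [hη, ← mul_assoc, ← mul_assoc, mul_inv_cancel, one_mul]
  have htm : t0 * μ⁻¹ ∈ Tm k (Vr n) := mul_mem t0m (inv_mem μm)
  refine ⟨η * μ⁻¹, ?_, ?_, ?_⟩
  · obtain ⟨L, hL⟩ := FLs.tame _ htm
    refine ⟨L, ?_⟩
    rw [hη, mul_assoc]
    exact FLs.mul (FLs.inv (FLs.mono (Nat.zero_le L) hFL)) hL
  · intro v
    have h := J.diff (η : PS k n →ₐ[k] PS k n) (μ : PS k n →ₐ[k] PS k n) 1 Jη Jμ Jdiff (μinv v)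
    have h2 : μ (μ⁻¹ (X v)) = X v := by
      change (μ * μ⁻¹) (X v) = X v
      rw [mul_inv_cancel]
      rfl
    change η (μ⁻¹ (X v)) - μ (μ⁻¹ (X v)) ∈ _ at h
    rw [h2] at h
    rw [AlgEquiv.mul_apply, add_comm 1]
    exact h
  · rw [hprod]
    exact htm

end Pool.AM
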