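import Pool.Agent.Work.MP_91aed7_am.Interface

set_option autoImplicit false

namespace Pool.AM.SUS_

lemma step {R : Type} [CommRing R] (hSE : Stmt_SE) (hNLP : Stmt_NLP) (hHIG : Stmt_HIG)
    (hNIL : ∀ (ι : Type) [Fintype ι] [DecidableEq ι] (N : Matrix ι ι R),
      IsNilpotent N → SE (Mt N))
    (ih : ∀ (ι : Type) [Fintype ι] [DecidableEq ι] (M : Matrix ι ι R), M.det = 1 → SE M)
    (ι : Type) [Fintype ι] [DecidableEq ι] (M : Matrix ι ι (Polynomial R)) (hM : M.det = 1) :
    SE M := by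
  have S : SELaws := hSE
  obtain ⟨l, M0, M1, E, hE, F, hF, h⟩ := hHIG R ι M
  rw [← S.stab (Fin l), h]
  have dE : E.det = 1 := S.det (S.of_EL hE)
  have dF : F.det = 1 := S.det (S.of_EL hF)
  have dM : (M0.map Polynomial.C + (Polynomial.X : Polynomial R) • M1.map Polynomial.C).det
      = 1 := by
    have h1 := congrArg Matrix.det h
    rw [Matrix.det_mul, Matrix.det_mul, dE, dF, one_mul, mul_one,
      Matrix.det_fromBlocks_zero₂₁, hM, Matrix.det_one, one_mul] at h1
    exact h1.symm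
  have d0 : M0.det = 1 := by
    have h1 := congrArg (Polynomial.evalRingHom (0 : R)) dM
    rw [RingHom.map_det, map_one] at h1
    have h2 : (Polynomial.evalRingHom (0 : R)).mapMatrix
        (M0.map Polynomial.C + (Polynomial.X : Polynomial R) • M1.map Polynomial.C) = M0 := by
      ext a b
      simp
    rw [h2] at h1
    exact h1
  have s0 : SE (M0.map (Polynomial.C : R →+* Polynomial R)) := S.map Polynomial.C (ih _ M0 d0)
  have hinv : M0 * M0⁻¹ = 1 := Matrix.mul_nonsing_inv M0 (by rw [d0]; exact isUnit_one)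
  have fac : M0.map Polynomial.C + (Polynomial.X : Polynomial R) • M1.map Polynomial.C
      = M0.map (Polynomial.C : R →+* Polynomial R) * Mt (M0⁻¹ * M1) := by
    unfold Mt
    rw [mul_add, mul_one, mul_smul_comm]
    congr 2
    have h3 : (M0 * (M0⁻¹ * M1)).map (Polynomial.C : R →+* Polynomial R)
        = M0.map (Polynomial.C : R →+* Polynomial R)
          * (M0⁻¹ * M1).map (Polynomial.C : R →+* Polynomial R) := Matrix.map_mul
    rw [← mul_assoc, hinv, one_mul] at h3
    exact h3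
  have dMt : (Mt (M0⁻¹ * M1)).det = 1 := by
    have h1 := congrArg Matrix.det fac
    have h4 : (M0.map (Polynomial.C : R →+* Polynomial R)).det = 1 := S.det s0
    rw [Matrix.det_mul, h4, one_mul, dM] at h1
    exact h1.symm
  have nil : IsNilpotent (M0⁻¹ * M1) :=
    hNLP R _ _ (Mt (M0⁻¹ * M1))⁻¹ (Matrix.mul_nonsing_inv _ (by rw [dMt]; exact isUnit_one))
  have sN : SE (Mt (M0⁻¹ * M1)) := hNIL _ _ nil
  rw [S.mul_EL hF, S.EL_mul hE, fac]
  exact S.mul s0 sN

lemma transfer {A B : Type} [CommRing A] [CommRing B] (hSE : Stmt_SE) (e : A ≃+* B)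
    (h : ∀ (ι : Type) [Fintype ι] [DecidableEq ι] (M : Matrix ι ι B), M.det = 1 → SE M)
    (ι : Type) [Fintype ι] [DecidableEq ι] (M : Matrix ι ι A) (hM : M.det = 1) : SE M := by
  have S : SELaws := hSE
  have h1 : ((e : A →+* B).mapMatrix M).det = 1 := by
    rw [← RingHom.map_det, hM, map_one]
  have h2 := h ι _ h1
  have h3 := S.map (e.symm : B →+* A) h2
  have h4 : ((e : A →+* B).mapMatrix M).map (e.symm : B →+* A) = M := by
    ext a b
    simp
  rw [h4] at h3
  exact h3

end Pool.AM.SUS_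

namespace Pool.AM

theorem stmt_SUS (hSE : Stmt_SE) (hNIL : Stmt_NIL) (hNLP : Stmt_NLP) (hHIG : Stmt_HIG)
    (hFLD : Stmt_FLD) : Stmt_SUS := by
  intro k _ m
  induction m with
  | zero =>
    exact SUS_.transfer hSE (MvPolynomial.isEmptyAlgEquiv k (Fin 0)).toRingEquiv
      (fun ι _ _ M hM => hFLD k ι M hM)
  | succ m ih =>
    exact SUS_.transfer hSE (MvPolynomial.finSuccEquiv k m).toRingEquiv
      (SUS_.step hSE hNLP hHIG (fun ι _ _ N hN => hNIL k m ι N hN) ih)

end Pool.AM
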